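import Pool.Agent.helper91.HZ.Spec

namespace Pool.Agent.HZ

theorem LCJ_pow {m R : Type*} [Fintype m] [DecidableEq m] [CommRing R] (B B' A : Matrix m m R)
    (hB : B' * B = 1) (hB2 : B * B' = 1) (i : ℕ) : (B * A * B') ^ i = B * A ^ i * B' := by
  induction i with
  | zero => rw [pow_zero, pow_zero, Matrix.mul_one, hB2]
  | succ i ih =>
    rw [pow_succ, ih, pow_succ]
    calc B * A ^ i * B' * (B * A * B') = B * A ^ i * (B' * B) * A * B' := by noncomm_ring
      _ = B * (A ^ i * A) * B' := by rw [hB]; noncomm_ring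

theorem LCJ_Lg {m k : Type*} [Fintype m] [DecidableEq m] [Field k] (B B' A : Matrix m m k)
    (hB : B' * B = 1) (hB2 : B * B' = 1) (n : ℕ) : Lg n (B * A * B') = B * Lg n A * B' := by
  unfold Lg
  rw [Matrix.mul_sum, Matrix.sum_mul]
  apply Finset.sum_congr rfl
  intro i _
  have h1 : B * A * B' - 1 = B * (A - 1) * B' := by
    rw [Matrix.mul_sub, Matrix.sub_mul, Matrix.mul_one, hB2]
  rw [h1, LCJ_pow B B' (A - 1) hB hB2, Matrix.mul_smul, Matrix.smul_mul]

theorem LCJ_inv {Γ m R : Type*} [Group Γ] [Fintype m] [DecidableEq m] [CommRing R]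
    (W : Γ →* Matrix m m R) (g : Γ) : W g⁻¹ * W g = 1 ∧ W g * W g⁻¹ = 1 := by
  constructor
  · rw [← map_mul, inv_mul_cancel, map_one]
  · rw [← map_mul, mul_inv_cancel, map_one]

theorem LCJ : LCJ_stmt := by
  intro J κ _ p k _ π Γ m _ _ _ W ρ g X hX
  unfold LL at hX
  induction hX using Submodule.span_induction with
  | mem x hx =>
    obtain ⟨w, hw, rfl⟩ := hx
    apply Submodule.subset_span
    refine ⟨g * w * g⁻¹, ?_, ?_⟩
    · intro j
      have e : (g * w * g⁻¹) j = g j * w j * (g j)⁻¹ := rfl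
      rw [e, map_mul, map_mul, map_mul, map_mul]
      have a1 := LCJ_inv (W j) (g j)
      have a2 := LCJ_inv (ρ j) (g j)
      rw [LCJ_pow _ _ _ a1.1 a1.2, LCJ_pow _ _ _ a2.1 a2.2, (hw j).1, (hw j).2]
      rw [Matrix.mul_one, Matrix.mul_one]
      exact ⟨a1.2, a2.2⟩
    · have b1 := LCJ_inv (star π W) g
      have b2 := LCJ_inv (star π ρ) g
      show (Lg (Fintype.card m) (star π W (g * w * g⁻¹)), Lg 2 (star π ρ (g * w * g⁻¹))) = _
      rw [map_mul, map_mul, map_mul, map_mul, LCJ_Lg _ _ _ b1.1 b1.2, LCJ_Lg _ _ _ b2.1 b2.2]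
  | zero =>
    have : ((star π W g * (0 : Matrix m m k × Matrix (Fin 2) (Fin 2) k).1 * star π W g⁻¹,
      star π ρ g * (0 : Matrix m m k × Matrix (Fin 2) (Fin 2) k).2 * star π ρ g⁻¹) :
      Matrix m m k × Matrix (Fin 2) (Fin 2) k) = 0 := by
      rw [Prod.fst_zero, Prod.snd_zero, Matrix.mul_zero, Matrix.zero_mul, Matrix.mul_zero, Matrix.zero_mul]
      rfl
    rw [this]
    exact Submodule.zero_mem _
  | add x y _ _ hx hy =>
    have : ((star π W g * (x + y).1 * star π W g⁻¹, star π ρ g * (x + y).2 * star π ρ g⁻¹) :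
      Matrix m m k × Matrix (Fin 2) (Fin 2) k) =
      (star π W g * x.1 * star π W g⁻¹, star π ρ g * x.2 * star π ρ g⁻¹) +
      (star π W g * y.1 * star π W g⁻¹, star π ρ g * y.2 * star π ρ g⁻¹) := by
      rw [Prod.fst_add, Prod.snd_add, Matrix.mul_add, Matrix.add_mul, Matrix.mul_add, Matrix.add_mul]
      rfl
    rw [this]
    exact Submodule.add_mem _ hx hy
  | smul a x _ hx =>
    have : ((star π W g * (a • x).1 * star π W g⁻¹, star π ρ g * (a • x).2 * star π ρ g⁻¹) :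
      Matrix m m k × Matrix (Fin 2) (Fin 2) k) =
      a • (star π W g * x.1 * star π W g⁻¹, star π ρ g * x.2 * star π ρ g⁻¹) := by
      rw [Prod.smul_fst, Prod.smul_snd, Matrix.mul_smul, Matrix.smul_mul, Matrix.mul_smul, Matrix.smul_mul]
      rfl
    rw [this]
    exact Submodule.smul_mem _ _ hx

end Pool.Agent.HZ
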