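import Pool.Agent.helper91.HZ.Spec

namespace Pool.Agent.HZ

theorem NIL_1 {κ m : Type} [Field κ] [Fintype m] [DecidableEq m] (p n : ℕ) (hp : p.Prime)
    (hc : CharP κ p) (hn : Fintype.card m ≤ n) (A : Matrix m m κ) (hA : A ^ p = 1) :
    (A - 1) ^ n = 0 ∧ A.det = 1 := by
  haveI : Fact p.Prime := ⟨hp⟩
  constructor
  · rcases isEmpty_or_nonempty m with h | h
    · exact Subsingleton.elim _ _
    · haveI : CharP (Matrix m m κ) p := inferInstance
      have h1 : (A - 1) ^ p = 0 := by
        rw [sub_pow_char_of_commute (p := p) (Commute.one_right A), hA, one_pow, sub_self]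
      have h2 : IsNilpotent (A - 1) := ⟨p, h1⟩
      have h3 := Matrix.isNilpotent_charpoly_sub_pow_of_isNilpotent h2
      have h4 : (A - 1).charpoly = Polynomial.X ^ Fintype.card m := by
        have := h3.eq_zero
        rwa [sub_eq_zero] at this
      have h5 := Matrix.aeval_self_charpoly (A - 1)
      rw [h4, map_pow, Polynomial.aeval_X] at h5
      obtain ⟨r, rfl⟩ := Nat.exists_eq_add_of_le hn
      rw [pow_add, h5, zero_mul]
  · have h1 : A.det ^ p = 1 := by rw [← Matrix.det_pow, hA, Matrix.det_one]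
    have h2 : (A.det - 1) ^ p = 0 := by
      rw [sub_pow_char (p := p) A.det 1, h1, one_pow, sub_self]
    have h3 := pow_eq_zero_iff hp.ne_zero |>.1 h2
    exact sub_eq_zero.1 h3

theorem NIL_mt {J : Type} {κ : J → Type} [∀ j, Field (κ j)] {Γ m : Type} [Group Γ] [Fintype m]
    [DecidableEq m] (W : ∀ j, Γ →* Matrix m m (κ j)) (w : J → Γ) (j : J) :
    (mt W w).map (Pi.evalRingHom κ j) = W j (w j) := by
  ext a b
  rfl

theorem NIL : NIL_stmt := by
  refine ⟨fun p n hp hc hn A hA => NIL_1 p n hp hc hn A hA, ?_⟩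
  intro J 𝒰 κ _ p k _ π hU Γ m _ _ _ W n w hn hw
  have key : ∀ j, (W j (w j) - 1) ^ n = 0 ∧ (W j (w j)).det = 1 := fun j =>
    NIL_1 (p j) n (hU.prime j) (hU.char j) hn _ (hw j)
  have hst : star π W w = π.mapMatrix (mt W w) := rfl
  have hev : ∀ j, (Pi.evalRingHom κ j).mapMatrix (mt W w) = W j (w j) := fun j => NIL_mt W w j
  constructor
  · have h1 : (mt W w - 1) ^ n = 0 := by
      ext a b j
      have e : (Pi.evalRingHom κ j).mapMatrix ((mt W w - 1) ^ n) = 0 := by
        rw [map_pow, map_sub, map_one, hev, (key j).1]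
      exact congrFun (congrFun e a) b
    rw [hst]
    have : (π.mapMatrix (mt W w) - 1) ^ n = π.mapMatrix ((mt W w - 1) ^ n) := by
      rw [map_pow, map_sub, map_one]
    rw [this, h1, map_zero]
  · have h1 : (mt W w).det = 1 := by
      funext j
      have e : (Pi.evalRingHom κ j) ((mt W w).det) = 1 := by
        rw [RingHom.map_det, hev, (key j).2]
      exact e
    rw [hst, ← RingHom.map_det, h1, map_one]

end Pool.Agent.HZ
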