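import Pool.Agent.helper91.HZ.Spec

namespace Pool.Agent.HZ

theorem PIG : PIG_stmt := by
  classical
  intro T Y U _ _ S f g B C M hB hC hM
  have h1 : S.card ≤ C * (S.image fun t => (f t, g t)).card := by
    apply Finset.card_le_mul_card_image
    intro b hb
    obtain ⟨s, hs, hs'⟩ := hC b.2
    refine le_trans (Finset.card_le_card ?_) hs
    intro t ht
    rw [Finset.mem_filter] at ht
    exact hs' t ht.1 (by rw [← ht.2])
  have h2 : (S.image fun t => (f t, g t)).card ≤ M * ((S.image fun t => (f t, g t)).image Prod.fst).card := by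
    apply Finset.card_le_mul_card_image
    intro y hy
    obtain ⟨s, hs, hs'⟩ := hM y
    refine le_trans ?_ hs
    apply Finset.card_le_card_of_injOn Prod.snd
    · intro q hq
      rw [Finset.mem_coe, Finset.mem_filter, Finset.mem_image] at hq
      obtain ⟨⟨t, ht, rfl⟩, h⟩ := hq
      exact hs' t ht h
    · intro q hq q' hq' h
      rw [Finset.mem_coe, Finset.mem_filter] at hq hq'
      exact Prod.ext (hq.2.trans hq'.2.symm) h
  have h3 : ((S.image fun t => (f t, g t)).image Prod.fst) = S.image f := by
    rw [Finset.image_image]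
    rfl
  rw [h3] at h2
  calc S.card ≤ C * (S.image fun t => (f t, g t)).card := h1
    _ ≤ C * (M * (S.image f).card) := Nat.mul_le_mul_left _ h2
    _ ≤ C * (M * B) := Nat.mul_le_mul_left _ (Nat.mul_le_mul_left _ hB)
    _ = C * M * B := by ring

end Pool.Agent.HZ
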