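import Pool.Agent.helper91.HZ.Spec

namespace Pool.Agent.HZ

open Filter

theorem ULT : ULT_stmt := by
  classical
  intro J p d h1 h2
  let F : ℕ → Filter J := fun c => Filter.cofinite ⊓ 𝓟 {j | c * d j < p j}
  have hF : ∀ c, (F c).NeBot := by
    intro c
    show (Filter.cofinite ⊓ 𝓟 {j | c * d j < p j}).NeBot
    rw [Filter.inf_principal_neBot_iff]
    intro U hU
    rw [Filter.mem_cofinite] at hU
    by_contra hne
    rw [Set.not_nonempty_iff_eq_empty] at hne
    apply h2 c
    refine hU.subset ?_
    intro j hj hjU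
    have : j ∈ U ∩ {j | c * d j < p j} := ⟨hjU, hj⟩
    rw [hne] at this
    exact this
  have hdir : Directed (· ≥ ·) F := by
    intro a b
    refine ⟨max a b, ?_, ?_⟩
    · show F (max a b) ≤ F a
      refine inf_le_inf le_rfl (Filter.principal_mono.2 ?_)
      intro j hj
      exact lt_of_le_of_lt (Nat.mul_le_mul_right _ (le_max_left a b)) hj
    · show F (max a b) ≤ F b
      refine inf_le_inf le_rfl (Filter.principal_mono.2 ?_)
      intro j hj
      exact lt_of_le_of_lt (Nat.mul_le_mul_right _ (le_max_right a b)) hj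
  haveI : (⨅ c, F c).NeBot := Filter.iInf_neBot_of_directed' hdir hF
  have hle : ((Ultrafilter.of (⨅ c, F c) : Ultrafilter J) : Filter J) ≤ ⨅ c, F c := Ultrafilter.of_le _
  have hcof : ((Ultrafilter.of (⨅ c, F c) : Ultrafilter J) : Filter J) ≤ Filter.cofinite :=
    hle.trans ((iInf_le F 0).trans inf_le_left)
  have hfin : ∀ s : Set J, s.Finite → ∀ᶠ j in ((Ultrafilter.of (⨅ c, F c) : Ultrafilter J) : Filter J), j ∉ s := by
    intro s hs
    apply hcof
    rw [Filter.mem_cofinite]
    refine hs.subset ?_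
    intro j hj
    by_contra hjs
    exact hj hjs
  refine ⟨Ultrafilter.of (⨅ c, F c), ?_, ?_, hfin⟩
  · intro m
    filter_upwards [hfin _ (h1 m)] with j hj
    exact not_le.1 hj
  · intro c
    have h3 : ((Ultrafilter.of (⨅ c, F c) : Ultrafilter J) : Filter J) ≤ 𝓟 {j | c * d j < p j} :=
      hle.trans ((iInf_le F c).trans inf_le_right)
    exact h3 (Filter.mem_principal_self _)

end Pool.Agent.HZ
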