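import Pool.Agent.helper91.HZ.Spec

namespace Pool.Agent.HZ

open Filter

/-- the ideal of the functions vanishing almost everywhere -/
def UPF_I {J : Type} (𝒰 : Ultrafilter J) (κ : J → Type) [∀ j, Field (κ j)] : Ideal (∀ j, κ j) where
  carrier := {x | ∀ᶠ j in (𝒰 : Filter J), x j = 0}
  add_mem' := by
    intro a b ha hb
    filter_upwards [ha, hb] with j h1 h2
    rw [Pi.add_apply, h1, h2, add_zero]
  zero_mem' := Filter.Eventually.of_forall fun j => rfl
  smul_mem' := by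
    intro c x hx
    filter_upwards [hx] with j h1
    rw [smul_eq_mul, Pi.mul_apply, h1, mul_zero]

theorem UPF_mem {J : Type} (𝒰 : Ultrafilter J) (κ : J → Type) [∀ j, Field (κ j)] (x : ∀ j, κ j) :
    x ∈ UPF_I 𝒰 κ ↔ ∀ᶠ j in (𝒰 : Filter J), x j = 0 := Iff.rfl

theorem UPF_max {J : Type} (𝒰 : Ultrafilter J) (κ : J → Type) [∀ j, Field (κ j)] :
    (UPF_I 𝒰 κ).IsMaximal := by
  classical
  rw [Ideal.isMaximal_iff]
  constructor
  · rw [UPF_mem]
    intro h
    obtain ⟨j, hj⟩ := h.exists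
    exact one_ne_zero hj
  · intro K x hK hx hxK
    rw [UPF_mem, ← Ultrafilter.eventually_not] at hx
    have h1 : (fun j => (x j)⁻¹) * x ∈ K := K.mul_mem_left _ hxK
    have h2 : 1 - (fun j => (x j)⁻¹) * x ∈ UPF_I 𝒰 κ := by
      rw [UPF_mem]
      filter_upwards [hx] with j hj
      show 1 - (x j)⁻¹ * x j = 0
      rw [inv_mul_cancel₀ hj, sub_self]
    have h3 := K.add_mem (hK h2) h1
    rwa [sub_add_cancel] at h3

theorem UPF : UPF_stmt := by
  classical
  intro J 𝒰 κ _ _ p hp hc hlim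
  haveI hmax : (UPF_I 𝒰 κ).IsMaximal := UPF_max 𝒰 κ
  haveI : Nonempty J := Filter.nonempty_of_neBot (𝒰 : Filter J)
  letI fk : Field ((∀ j, κ j) ⧸ UPF_I 𝒰 κ) := Ideal.Quotient.field _
  have hsurj : Function.Surjective (Ideal.Quotient.mk (UPF_I 𝒰 κ)) := Ideal.Quotient.mk_surjective
  have hzero : ∀ x, (Ideal.Quotient.mk (UPF_I 𝒰 κ)) x = 0 ↔ ∀ᶠ j in (𝒰 : Filter J), x j = 0 := by
    intro x
    rw [Ideal.Quotient.eq_zero_iff_mem, UPF_mem]
  have hcz : CharZero ((∀ j, κ j) ⧸ UPF_I 𝒰 κ) := by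
    refine charZero_of_inj_zero ?_
    intro n hn
    rw [← map_natCast (Ideal.Quotient.mk (UPF_I 𝒰 κ)), hzero] at hn
    obtain ⟨j, hj, hj'⟩ := (hn.and (hlim n)).exists
    haveI := hc j
    have h4 : ((n : ℕ) : κ j) = 0 := hj
    rw [CharP.cast_eq_zero_iff (κ j) (p j)] at h4
    exact Nat.eq_zero_of_dvd_of_lt h4 hj'
  have hac : IsAlgClosed ((∀ j, κ j) ⧸ UPF_I 𝒰 κ) := by
    refine IsAlgClosed.of_exists_root _ ?_
    intro f hf hirr
    have hl : f ∈ Polynomial.lifts (Ideal.Quotient.mk (UPF_I 𝒰 κ)) := by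
      rw [Polynomial.mem_lifts]
      exact Polynomial.map_surjective _ hsurj f
    obtain ⟨q, hq, hqd, hqm⟩ := Polynomial.lifts_and_natDegree_eq_and_monic hl hf
    have hroot : ∀ j, ∃ x : κ j, (q.map (Pi.evalRingHom κ j)).IsRoot x := by
      intro j
      apply IsAlgClosed.exists_root
      rw [hqm.degree_map, Polynomial.degree_eq_natDegree hqm.ne_zero, hqd]
      have h5 := hirr.natDegree_pos
      intro h6
      rw [Nat.cast_eq_zero] at h6
      omega
    choose r hr using hroot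
    refine ⟨(Ideal.Quotient.mk (UPF_I 𝒰 κ)) r, ?_⟩
    have h1 : q.eval r = 0 := by
      funext j
      have h2 := hr j
      rw [Polynomial.IsRoot, Polynomial.eval_map] at h2
      have h3 := Polynomial.eval₂_hom (p := q) (Pi.evalRingHom κ j) r
      exact h3.symm.trans h2
    rw [← hq, Polynomial.eval_map, Polynomial.eval₂_hom, h1, map_zero]
  exact ⟨_, fk, hcz, hac, Ideal.Quotient.mk (UPF_I 𝒰 κ), ⟨hp, hc, hlim, hsurj, hzero⟩⟩

end Pool.Agent.HZ
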